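import Pool.Agent.Helper51.CX.St

set_option autoImplicit false

/-! Project CX (MP_a41ee4_co), module LD: there is no fourth step. -/

namespace Pool.Agent.Helper73.CX

open Pool.Agent.Helper51.CX

theorem hLD : StRD → StD1 → StD2 → StD3 → StLD := by
  intro hRD hD1 hD2 hD3 K _ _ _ j k z d hS hC hF hj ha hb hk hlt heq
  obtain ⟨hel, hno⟩ := hD1 K j z d hS hF hj ha hb k hk hlt heq
  obtain ⟨r1, r2, r3, r4⟩ := hRD K j hS.lo hS.hi d hC hno
  by_cases hY : MY d
  · rcases r4 with h | h | h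
    · exact hD3 K j z d hS hF hj ha hb hel 2 (Or.inl rfl) hY h
    · exact hD3 K j z d hS hF hj ha hb hel 3 (Or.inr (Or.inl rfl)) hY h
    · exact hD3 K j z d hS hF hj ha hb hel 4 (Or.inr (Or.inr rfl)) hY h
  · have s1 : MZ 2 d ∨ MZ 3 d := r1.resolve_left hY
    have s2 : MZ 2 d ∨ MZ 4 d := r2.resolve_left hY
    have s3 : MZ 3 d ∨ MZ 4 d := r3.resolve_left hY
    have key := fun (a b : Fin 6) (h1 : a = 2 ∨ a = 3 ∨ a = 4) (h2 : b = 2 ∨ b = 3 ∨ b = 4)
      (h3 : a ≠ b) => hD2 K j z d hS hF hj hel a b h1 h2 h3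
    by_cases h2 : MZ 2 d
    · rcases s3 with h | h
      · exact key 2 3 (Or.inl rfl) (Or.inr (Or.inl rfl)) (by decide) h2 h
      · exact key 2 4 (Or.inl rfl) (Or.inr (Or.inr rfl)) (by decide) h2 h
    · exact key 3 4 (Or.inr (Or.inl rfl)) (Or.inr (Or.inr rfl)) (by decide)
        (s1.resolve_left h2) (s2.resolve_left h2)

end Pool.Agent.Helper73.CX
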